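import Mathlib
import Pool.Agent.R841.FermatCore
import Pool.Agent.R841.FermatSpec

set_option autoImplicit false

/-!
MP_4362c3_ag, Q1: for all `m ≥ 1` and all `n`, the function `1 / (x₁ⁿ + ⋯ + x_mⁿ)` is rationally
integrable with respect to `x₁, …, x_m` if and only if `n ≠ m`.
-/

open MvPolynomial
open scoped TensorProduct

namespace Pool.Agent.Results.MP_4362c3_ag.FermatNotIntegrable

open Pool.Agent.R841.Fermat

universe u

/-- the rational function field `k(x₁, …, x_m)` -/
abbrev RF (m : ℕ) (k : Type u) [Field k] : Type u := FractionRing (MvPolynomial (Fin m) k)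

/-- the variable `xᵢ` of `k(x₁, …, x_m)` -/
noncomputable def x (m : ℕ) (k : Type u) [Field k] (i : Fin m) : RF m k :=
  algebraMap (MvPolynomial (Fin m) k) (RF m k) (X i)

/-- `D` is the family of the usual partial derivations of `k(x₁, …, x_m)` -/
def IsPartials (m : ℕ) (k : Type u) [Field k]
    (D : Fin m → Derivation k (RF m k) (RF m k)) : Prop :=
  ∀ i j, D i (x m k j) = if i = j then 1 else 0

variable {k : Type u} [Field k] {m : ℕ}

/-- Derivations extend along formally etale algebras. -/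
theorem exists_derivation {K A L : Type*} [Field K] [CommRing A] [Algebra K A] [Field L]
    [Algebra K L] [Algebra A L] [IsScalarTower K A L] [Algebra.FormallyEtale A L]
    (D : Derivation K A A) :
    ∃ D' : Derivation K L L, ∀ a, D' (algebraMap A L a) = algebraMap A L (D a) := by
  let e := KaehlerDifferential.tensorKaehlerEquivOfFormallyEtale K A L
  let φ : (Ω[L⁄K]) →ₗ[L] L :=
    (TensorProduct.AlgebraTensorModule.rid A L L).toLinearMap ∘ₗ
      (D.liftKaehlerDifferential.baseChange L) ∘ₗ e.symm.toLinearMap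
  refine ⟨φ.compDer (KaehlerDifferential.D K L), fun a => ?_⟩
  have h1 : e.symm (KaehlerDifferential.D K L (algebraMap A L a)) =
      1 ⊗ₜ KaehlerDifferential.D K A a :=
    KaehlerDifferential.tensorKaehlerEquivOfFormallyEtale_symm_D_algebraMap K A L a
  change φ (KaehlerDifferential.D K L (algebraMap A L a)) = _
  simp only [φ, LinearMap.comp_apply, LinearEquiv.coe_coe]
  rw [h1, LinearMap.baseChange_tmul, Derivation.liftKaehlerDifferential_comp_D,
    TensorProduct.AlgebraTensorModule.rid_tmul, Algebra.smul_def, mul_one]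

lemma partials_apply (D : Fin m → Derivation k (RF m k) (RF m k)) (hD : IsPartials m k D)
    (i : Fin m) (P : MvPolynomial (Fin m) k) :
    D i (algebraMap _ (RF m k) P) = algebraMap _ (RF m k) (pderiv i P) := by
  have h : (D i).compAlgebraMap (MvPolynomial (Fin m) k) =
      (Algebra.linearMap (MvPolynomial (Fin m) k) (RF m k)).compDer (pderiv i) := by
    apply MvPolynomial.derivation_ext
    intro j
    change D i (x m k j) =
      algebraMap (MvPolynomial (Fin m) k) (RF m k) (pderiv i (X j : MvPolynomial (Fin m) k))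
    rw [hD i j, pderiv_X]
    by_cases hij : i = j
    · subst hij; simp
    · simp [hij]
  exact congrArg (fun d : Derivation k (MvPolynomial (Fin m) k) (RF m k) => d P) h

theorem exists_partials (m : ℕ) (k : Type u) [Field k] : ∃! D, IsPartials m k D := by
  have : Algebra.FormallyEtale (MvPolynomial (Fin m) k) (RF m k) :=
    Algebra.FormallyEtale.of_isLocalization (nonZeroDivisors _)
  have h1 : ∀ i : Fin m, ∃ D' : Derivation k (RF m k) (RF m k),
      ∀ a, D' (algebraMap (MvPolynomial (Fin m) k) (RF m k) a) =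
        algebraMap (MvPolynomial (Fin m) k) (RF m k) (pderiv i a) :=
    fun i => exists_derivation (pderiv i)
  choose D hD using h1
  have hDP : IsPartials m k D := by
    intro i j
    rw [x, hD, pderiv_X]
    by_cases hij : i = j
    · subst hij; simp
    · simp [hij]
  refine ⟨D, hDP, ?_⟩
  intro D' hD'
  funext i
  apply Derivation.ext
  intro f
  obtain ⟨a, b, hb, rfl⟩ := IsFractionRing.div_surjective (A := MvPolynomial (Fin m) k) f
  rw [Derivation.leibniz_div, Derivation.leibniz_div, partials_apply D' hD', partials_apply D' hD',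
    partials_apply D hDP, partials_apply D hDP]

lemma clear_denominators (D : Fin m → Derivation k (RF m k) (RF m k)) (hD : IsPartials m k D)
    (u : Fin m → RF m k) (Fp : MvPolynomial (Fin m) k) (hF : Fp ≠ 0)
    (h : 1 / algebraMap _ (RF m k) Fp = ∑ i, D i (u i)) :
    ∃ (P : Fin m → MvPolynomial (Fin m) k) (Q : MvPolynomial (Fin m) k), Q ≠ 0 ∧
      Q ^ 2 = Fp * ∑ i, (Q * pderiv i (P i) - P i * pderiv i Q) := by
  obtain ⟨⟨Q, hQ⟩, hb⟩ :=
    IsLocalization.exist_integer_multiples_of_finite (nonZeroDivisors (MvPolynomial (Fin m) k)) u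
  choose P hP using hb
  have hQ0 : Q ≠ 0 := nonZeroDivisors.ne_zero hQ
  refine ⟨P, Q, hQ0, ?_⟩
  apply IsFractionRing.injective (MvPolynomial (Fin m) k) (RF m k)
  have hF' : algebraMap _ (RF m k) Fp ≠ 0 := by
    intro h0
    apply hF
    apply IsFractionRing.injective (MvPolynomial (Fin m) k) (RF m k)
    rw [h0, map_zero]
  have h1 : ∀ i, algebraMap _ (RF m k) Q ^ 2 * D i (u i) =
      algebraMap _ (RF m k) (Q * pderiv i (P i) - P i * pderiv i Q) := by
    intro i
    have h2 : algebraMap _ (RF m k) (P i) = algebraMap _ (RF m k) Q * u i := by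
      rw [hP i, Algebra.smul_def]
    have h3 := partials_apply D hD i (P i)
    rw [h2, Derivation.leibniz, partials_apply D hD i Q, smul_eq_mul, smul_eq_mul] at h3
    rw [map_sub, map_mul, map_mul, h2, ← h3]
    ring
  rw [map_mul, map_sum, ← Finset.sum_congr rfl (fun i _ => h1 i), ← Finset.mul_sum, ← h, map_pow]
  field_simp

lemma map_F {A B : Type u} [CommRing A] [CommRing B] (f : A →+* B) :
    MvPolynomial.map f (F m A) = F m B := by
  simp [F]

lemma key {R κ : Type u} [CommRing R] [Field κ] (ι : R →+* k) (hι : Function.Injective ι)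
    (g : R →+* κ) (p : ℕ) [Fact p.Prime] [CharP κ p] (a : ℕ) (ha : p - 1 = m * a) (hm : m ≠ 0)
    (P : Fin m → MvPolynomial (Fin m) R) (Q : MvPolynomial (Fin m) R)
    (h : (MvPolynomial.map ι Q) ^ 2 = F m k * ∑ i, (MvPolynomial.map ι Q *
      pderiv i (MvPolynomial.map ι (P i)) - MvPolynomial.map ι (P i) *
      pderiv i (MvPolynomial.map ι Q)))
    (α : Fin m →₀ ℕ) (r : R) (hr : coeff α Q * r = 1) : False := by
  have h1 : Q ^ 2 = F m R * ∑ i, (Q * pderiv i (P i) - P i * pderiv i Q) := by
    apply map_injective ι hι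
    rw [map_pow, map_mul, map_sum, map_F]
    simp only [map_sub, map_mul, ← pderiv_map]
    exact h
  have h2 : (MvPolynomial.map g Q) ^ 2 = F m κ * ∑ i, (MvPolynomial.map g Q *
      pderiv i (MvPolynomial.map g (P i)) - MvPolynomial.map g (P i) *
      pderiv i (MvPolynomial.map g Q)) := by
    have := congrArg (MvPolynomial.map g) h1
    rw [map_pow, map_mul, map_sum, map_F] at this
    simpa only [map_sub, map_mul, ← pderiv_map] using this
  have h3 := core (p := p) a ha hm (fun i => MvPolynomial.map g (P i)) (MvPolynomial.map g Q) h2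
  have h4 : g (coeff α Q) = 0 := by
    rw [← coeff_map, h3, coeff_zero]
  have h6 := congrArg g hr
  rw [map_mul, h4, zero_mul, map_one] at h6
  exact zero_ne_one h6

lemma lift_coeffs {A : Type u} [CommRing A] (S : Subring A) (P : MvPolynomial (Fin m) A)
    (h : ∀ c ∈ P.coeffs, c ∈ S) : ∃ P' : MvPolynomial (Fin m) S,
      MvPolynomial.map S.subtype P' = P := by
  have : P ∈ Set.range (MvPolynomial.map S.subtype) := by
    rw [mem_range_map_iff_coeffs_subset]
    intro c hc
    exact ⟨⟨c, h c hc⟩, rfl⟩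
  exact this

theorem not_integrable [CharZero k] (hm : m ≠ 0) (P : Fin m → MvPolynomial (Fin m) k)
    (Q : MvPolynomial (Fin m) k) (hQ : Q ≠ 0)
    (h : Q ^ 2 = F m k * ∑ i, (Q * pderiv i (P i) - P i * pderiv i Q)) : False := by
  classical
  obtain ⟨α, hα⟩ : ∃ α, coeff α Q ≠ 0 := by
    by_contra h0
    push Not at h0
    apply hQ
    ext α
    rw [h0, coeff_zero]
  obtain ⟨s, hs1, hs2, hs3⟩ : ∃ s : Finset k, (∀ i, ∀ c ∈ (P i).coeffs, c ∈ s) ∧
      (∀ c ∈ Q.coeffs, c ∈ s) ∧ (coeff α Q)⁻¹ ∈ s := by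
    refine ⟨(Finset.univ.biUnion fun i => (P i).coeffs) ∪ Q.coeffs ∪ {(coeff α Q)⁻¹}, ?_, ?_, ?_⟩
    · intro i c hc
      simp only [Finset.mem_union, Finset.mem_biUnion]
      exact Or.inl (Or.inl ⟨i, Finset.mem_univ i, hc⟩)
    · intro c hc
      simp only [Finset.mem_union]
      exact Or.inl (Or.inr hc)
    · simp
  obtain ⟨N, hN, hspec⟩ := spec s
  obtain ⟨p, hp, hpN, hmod⟩ := Nat.exists_prime_gt_modEq_one (k := m) N hm
  have hpN' : ¬ p ∣ N := fun hd => absurd (Nat.le_of_dvd (Nat.pos_of_ne_zero hN) hd) (by omega)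
  obtain ⟨κ, _, _, ⟨g⟩⟩ := hspec p hp hpN'
  have : Fact p.Prime := ⟨hp⟩
  obtain ⟨S, hS⟩ : ∃ S : Subring k, S = (Algebra.adjoin ℤ (s : Set k)).toSubring := ⟨_, rfl⟩
  have hsS : ∀ c ∈ s, c ∈ S := by
    intro c hc
    rw [hS]
    exact Algebra.subset_adjoin hc
  have hg : Nonempty (S →+* κ) := by
    subst hS
    exact ⟨g⟩
  obtain ⟨g'⟩ := hg
  choose P' hP' using fun i => lift_coeffs S (P i) (fun c hc => hsS c (hs1 i c hc))
  obtain ⟨Q', hQ'⟩ := lift_coeffs S Q (fun c hc => hsS c (hs2 c hc))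
  obtain ⟨a, ha⟩ : ∃ a, p - 1 = m * a := (Nat.modEq_iff_dvd' hp.one_le).mp hmod.symm
  refine key S.subtype Subtype.val_injective g' p a ha hm P' Q' ?_ α
    ⟨(coeff α Q)⁻¹, hsS _ hs3⟩ ?_
  · rw [hQ']
    simp only [hP']
    exact h
  · apply Subtype.ext
    have h6 : ((coeff α Q' : S) : k) = coeff α Q := by
      rw [← hQ', coeff_map]; rfl
    change ((coeff α Q' : S) : k) * (coeff α Q)⁻¹ = 1
    rw [h6, mul_inv_cancel₀ hα]

lemma F_ne_zero [CharZero k] (hm : m ≠ 0) (n : ℕ) :
    (∑ i : Fin m, (X i : MvPolynomial (Fin m) k) ^ n) ≠ 0 := by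
  intro h
  have h1 := congrArg (eval (fun _ => (1 : k))) h
  simp only [map_sum, map_pow, eval_X, one_pow, Finset.sum_const, Finset.card_univ,
    Fintype.card_fin, nsmul_eq_mul, mul_one, map_zero] at h1
  exact hm (by exact_mod_cast h1)

/-- For every field `k` of characteristic zero and all `m ≥ 1`, `n ≥ 0`: the function
`1 / (x₁ⁿ + ⋯ + x_mⁿ)` is a sum `∑ ∂_{xᵢ} uᵢ` with `uᵢ ∈ k(x₁, …, x_m)` if and only if `n ≠ m`. -/
theorem result (k : Type u) [Field k] [CharZero k] (m : ℕ) (hm : 1 ≤ m) :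
    (∃! D, IsPartials m k D) ∧
    ∀ D, IsPartials m k D → ∀ n : ℕ,
      (∃ u : Fin m → RF m k, 1 / (∑ i, x m k i ^ n) = ∑ i, D i (u i)) ↔ n ≠ m := by
  refine ⟨exists_partials m k, ?_⟩
  intro D hD n
  have hsum : ∑ i, x m k i ^ n =
      algebraMap _ (RF m k) (∑ i : Fin m, (X i : MvPolynomial (Fin m) k) ^ n) := by
    rw [map_sum]
    simp only [x, map_pow]
  have hF0 := F_ne_zero (k := k) (m := m) (by omega) n
  have hf0 : ∑ i, x m k i ^ n ≠ 0 := by
    rw [hsum]
    intro h0
    apply hF0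
    apply IsFractionRing.injective (MvPolynomial (Fin m) k) (RF m k)
    rw [h0, map_zero]
  constructor
  · rintro ⟨u, hu⟩ rfl
    rw [hsum] at hu
    obtain ⟨P, Q, hQ, h⟩ := clear_denominators D hD u _ hF0 hu
    exact not_integrable (by omega) P Q hQ h
  · intro hnm
    set f := ∑ i, x m k i ^ n with hf
    have hmn : ((m : k) - (n : k)) ≠ 0 := by
      rw [sub_ne_zero]
      exact fun h => hnm (Nat.cast_injective h).symm
    refine ⟨fun i => ((m : k) - (n : k))⁻¹ • (x m k i * f⁻¹), ?_⟩
    have hDf : ∀ i, x m k i * D i f = (n : RF m k) * x m k i ^ n := by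
      intro i
      rw [hf, map_sum, Finset.sum_eq_single i]
      · rw [Derivation.leibniz_pow, hD i i, if_pos rfl, smul_eq_mul, mul_one, nsmul_eq_mul]
        rcases n with _ | n
        · simp
        · rw [Nat.add_sub_cancel, pow_succ]; ring
      · intro j _ hj
        rw [Derivation.leibniz_pow, hD i j, if_neg (Ne.symm hj)]
        simp
      · intro h
        exact absurd (Finset.mem_univ i) h
    have h1 : ∀ i, D i (((m : k) - (n : k))⁻¹ • (x m k i * f⁻¹)) =
        ((m : k) - (n : k))⁻¹ • (f⁻¹ - (n : RF m k) * x m k i ^ n * (f⁻¹) ^ 2) := by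
      intro i
      rw [Derivation.map_smul, Derivation.leibniz, Derivation.leibniz_inv, hD i i, if_pos rfl]
      simp only [smul_eq_mul, mul_one]
      congr 1
      rw [← hDf i, inv_pow]
      ring
    rw [Finset.sum_congr rfl (fun i _ => h1 i), ← Finset.smul_sum, Finset.sum_sub_distrib,
      Finset.sum_const, ← Finset.sum_mul, ← Finset.mul_sum, ← hf]
    rw [Finset.card_univ, Fintype.card_fin, nsmul_eq_mul]
    have h2 : (m : RF m k) * f⁻¹ - (n : RF m k) * f * (f⁻¹) ^ 2 =
        ((m : k) - (n : k)) • (1 / f) := by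
      rw [Algebra.smul_def, map_sub, map_natCast, map_natCast]
      field_simp
    rw [h2, smul_smul, inv_mul_cancel₀ hmn, one_smul]

end Pool.Agent.Results.MP_4362c3_ag.FermatNotIntegrable
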